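import Pool.Agent.H50.MV.HyperplanesGenerateFlags

/-!
# Generating flags of flats in a matroid by hyperplanes

For every finite matroid `M` of rank `d` and any `m` complete flags of flats of `M` there are at most
`μ(m,d)` hyperplanes of `M` that generate all `m` flags.

Idea of the proof. Everything reduces to three flags `A`, `B`, `C`, for which `⌊5d/3⌋` hyperplanes
are needed. A flag is generated as soon as every level `i < d` is covered by a hyperplane that
contains `F i` but not `F (i+1)`. The rank function gives Jordan-Hölder bijections between
the levels of any two of the flags, and matched levels are covered by one hyperplane. Composing the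
three bijections gives a permutation of the levels of `A`; two consecutive items cost three
hyperplanes. A fixed item `i` has a label `c i`, the level of `C` met by the hyperplane that covers
the `A`-level `i` and the matched `B`-level; two fixed items with equal labels can be paired at cost
three by cocircuit elimination, and the remaining ones meet pairwise distinct levels of `C`, which
saves enough hyperplanes elsewhere.
-/

set_option autoImplicit false

namespace Pool.Agent.Results.MP_449c0f_co.HyperplanesGenerateFlags

open Pool.H50.MV.HyperplanesGenerateFlags

open Matroid in
/-- **Main theorem.** In every finite matroid `M` of rank `d`, any `m` complete flags of flats are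
generated by a family of at most `μ(m,d)` hyperplanes of `M`. -/
theorem result {α : Type*} (M : Matroid α) [M.Finite] (m d : ℕ) (hm : 1 ≤ m) (hd : 1 ≤ d)
    (hr : M.eRank = (d : ℕ∞)) (F : Fin m → Fin (d + 1) → Set α)
    (hF : ∀ j, IsCompleteFlag M d (F j)) :
    ∃ H : Finset (Set α), H.card ≤ mu m d ∧ (∀ K ∈ H, IsHyperplane M K) ∧
      ∀ j, Generates M (H : Set (Set α)) (F j) :=
  Pool.H50.MV.HyperplanesGenerateFlags.result M m d hm hd hr F hF

end Pool.Agent.Results.MP_449c0f_co.HyperplanesGenerateFlags
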